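import Mathlib

/-!
# MP_64bee1_co, Q1 for `k = n - 1` (all `n ≥ 4`)

`inv_{n-1,1}` on `S_{n+1}` is `des(w) + [w(1) > w(n+1)]`.  Removing the largest letter gives a closed
recursion for the distribution, whose solution is `(m+1) A(n,m) + (n+2-m) A(n,m-2)`.  Unimodality of
this sequence is then reduced, by unfolding the Eulerian recursion three times around the middle, to
the unimodality of the Eulerian numbers.
-/

set_option autoImplicit false

namespace Pool.Agent.Results.MP_64bee1_co.FirstOpenDistance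

open Equiv

/-- number of descents -/
def des {n : ℕ} (w : Perm (Fin (n+1))) : ℤ := ∑ i : Fin n, if w i.succ < w i.castSucc then 1 else 0

def eps {n : ℕ} (w : Perm (Fin (n+1))) : ℤ := if w (Fin.last n) < w 0 then 1 else 0

def ins {n : ℕ} (p : Fin (n+2)) (w : Perm (Fin (n+1))) : Perm (Fin (n+2)) :=
  (finSuccEquiv' p).trans ((Equiv.optionCongr w).trans (finSuccEquivLast (n := n+1)).symm)

lemma ins_self {n : ℕ} (p : Fin (n+2)) (w : Perm (Fin (n+1))) : ins p w p = Fin.last (n+1) := by
  simp [ins]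

lemma ins_succAbove {n : ℕ} (p : Fin (n+2)) (w : Perm (Fin (n+1))) (i : Fin (n+1)) :
    ins p w (p.succAbove i) = (w i).castSucc := by
  simp [ins]

lemma ins_eq {n : ℕ} (p : Fin (n+2)) (w : Perm (Fin (n+1))) (x : Fin (n+2)) (i : Fin (n+1))
    (h : x = p.succAbove i) : ins p w x = (w i).castSucc := by
  rw [h, ins_succAbove]

lemma ins_bij (n : ℕ) :
    Function.Bijective (fun q : Fin (n+2) × Perm (Fin (n+1)) => ins q.1 q.2) := by
  rw [Fintype.bijective_iff_injective_and_card]
  constructor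
  · rintro ⟨p, w⟩ ⟨p', w'⟩ h
    simp only at h
    have hp : p = p' := by
      have h1 : ins p w p = ins p' w' p := by rw [h]
      rw [ins_self] at h1
      have h2 : ins p' w' p' = ins p' w' p := by rw [ins_self, h1]
      exact ((ins p' w').injective h2).symm
    subst hp
    have hw : w = w' := by
      ext i
      have h1 : ins p w (p.succAbove i) = ins p w' (p.succAbove i) := by rw [h]
      rw [ins_succAbove, ins_succAbove] at h1
      have := congrArg Fin.val h1
      simpa using this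
    rw [hw]
  · simp [Fintype.card_prod, Fintype.card_perm, Nat.factorial_succ]

lemma des_zero {n : ℕ} (w : Perm (Fin (n+1))) : des (ins 0 w) = des w + 1 := by
  unfold des
  rw [Fin.sum_univ_succ]
  have h0 : ins 0 w (Fin.castSucc 0) = Fin.last (n+1) := by
    have : (Fin.castSucc (0 : Fin (n+1))) = 0 := rfl
    rw [this, ins_self]
  have h1 : ∀ j : Fin (n+1), ins 0 w j.succ = (w j).castSucc := by
    intro j
    apply ins_eq
    simp
  have h2 : ∀ i : Fin n, ins 0 w (Fin.castSucc i.succ) = (w i.castSucc).castSucc := by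
    intro i
    apply ins_eq
    simp
  rw [h0, h1]
  have h3 : ((w 0).castSucc < Fin.last (n+1)) := Fin.castSucc_lt_last _
  rw [if_pos h3, add_comm]
  congr 1
  apply Finset.sum_congr rfl
  intro i _
  rw [h1, h2]
  simp

lemma des_last {n : ℕ} (w : Perm (Fin (n+1))) : des (ins (Fin.last (n+1)) w) = des w := by
  unfold des
  rw [Fin.sum_univ_castSucc]
  have h1 : ∀ j : Fin (n+1), ins (Fin.last (n+1)) w j.castSucc = (w j).castSucc := by
    intro j
    apply ins_eq
    simp
  have h2 : ∀ i : Fin n, ins (Fin.last (n+1)) w (Fin.succ i.castSucc) = (w i.succ).castSucc := by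
    intro i
    apply ins_eq
    simp
  have h3 : ins (Fin.last (n+1)) w (Fin.last n).succ = Fin.last (n+1) := by
    rw [Fin.succ_last, ins_self]
  rw [h3, if_neg (by simp [Fin.le_last]), add_zero]
  apply Finset.sum_congr rfl
  intro i _
  rw [h1, h2]
  simp

lemma des_mid {n : ℕ} (w : Perm (Fin (n+1))) (i : Fin n) :
    des (ins i.castSucc.succ w) = des w + 1 - (if w i.succ < w i.castSucc then 1 else 0) := by
  unfold des
  rw [Fin.sum_univ_succAbove _ i.castSucc]
  rw [ins_self, if_neg (by simp [Fin.le_last]), zero_add]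
  have key : ∀ j : Fin n,
      (if ins i.castSucc.succ w (i.castSucc.succAbove j).succ
          < ins i.castSucc.succ w (i.castSucc.succAbove j).castSucc then (1:ℤ) else 0)
      = (if w j.succ < w j.castSucc then 1 else 0)
        + (if j = i then (1 - (if w i.succ < w i.castSucc then 1 else 0)) else 0) := by
    intro j
    rcases lt_trichotomy j i with h | h | h
    · have e1 : ins i.castSucc.succ w (i.castSucc.succAbove j).succ = (w j.succ).castSucc := by
        apply ins_eq
        apply Fin.ext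
        have h' : (j : ℕ) < i := h
        simp only [Fin.succAbove, Fin.lt_def, Fin.val_castSucc, Fin.val_succ]
        split_ifs <;> simp <;> omega
      have e2 : ins i.castSucc.succ w (i.castSucc.succAbove j).castSucc = (w j.castSucc).castSucc := by
        apply ins_eq
        apply Fin.ext
        have h' : (j : ℕ) < i := h
        simp only [Fin.succAbove, Fin.lt_def, Fin.val_castSucc, Fin.val_succ]
        split_ifs <;> simp <;> omega
      rw [e1, e2, if_neg (ne_of_lt h)]
      simp
    · subst h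
      have e1 : ins j.castSucc.succ w (j.castSucc.succAbove j).succ = (w j.succ).castSucc := by
        apply ins_eq
        apply Fin.ext
        simp only [Fin.succAbove, Fin.lt_def, Fin.val_castSucc, Fin.val_succ]
        split_ifs <;> simp <;> omega
      have e2 : ins j.castSucc.succ w (j.castSucc.succAbove j).castSucc = Fin.last (n+1) := by
        have : (j.castSucc.succAbove j).castSucc = j.castSucc.succ := by
          apply Fin.ext
          simp [Fin.succAbove]
        rw [this, ins_self]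
      rw [e1, e2, if_pos (Fin.castSucc_lt_last _), if_pos rfl]
      ring
    · have e1 : ins i.castSucc.succ w (i.castSucc.succAbove j).succ = (w j.succ).castSucc := by
        apply ins_eq
        apply Fin.ext
        have h' : (i : ℕ) < j := h
        simp only [Fin.succAbove, Fin.lt_def, Fin.val_castSucc, Fin.val_succ]
        split_ifs <;> simp <;> omega
      have e2 : ins i.castSucc.succ w (i.castSucc.succAbove j).castSucc = (w j.castSucc).castSucc := by
        apply ins_eq
        apply Fin.ext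
        have h' : (i : ℕ) < j := h
        simp only [Fin.succAbove, Fin.lt_def, Fin.val_castSucc, Fin.val_succ]
        split_ifs <;> simp <;> omega
      rw [e1, e2, if_neg (ne_of_gt h)]
      simp
  rw [Finset.sum_congr rfl (fun j _ => key j), Finset.sum_add_distrib]
  simp
  ring

lemma eps_zero {n : ℕ} (w : Perm (Fin (n+1))) : eps (ins 0 w) = 1 := by
  unfold eps
  have h1 : ins 0 w (Fin.last (n+1)) = (w (Fin.last n)).castSucc := by
    apply ins_eq
    simp
  rw [h1, ins_self, if_pos (Fin.castSucc_lt_last _)]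

lemma eps_last {n : ℕ} (w : Perm (Fin (n+1))) : eps (ins (Fin.last (n+1)) w) = 0 := by
  unfold eps
  rw [ins_self, if_neg (by simp [Fin.le_last])]

lemma eps_mid {n : ℕ} (w : Perm (Fin (n+1))) (i : Fin n) :
    eps (ins i.castSucc.succ w) = eps w := by
  unfold eps
  have h1 : ins i.castSucc.succ w (Fin.last (n+1)) = (w (Fin.last n)).castSucc := by
    apply ins_eq
    apply Fin.ext
    simp only [Fin.succAbove, Fin.lt_def, Fin.val_castSucc, Fin.val_succ]
    have := i.2
    split_ifs <;> simp at * <;> omega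
  have h2 : ins i.castSucc.succ w 0 = (w 0).castSucc := by
    apply ins_eq
    apply Fin.ext
    simp [Fin.succAbove, Fin.lt_def]
  rw [h1, h2]
  simp

lemma master {n : ℕ} (F : ℤ → ℤ → ℤ) :
    ∑ σ : Perm (Fin (n+2)), F (des σ) (eps σ)
      = ∑ w : Perm (Fin (n+1)), (F (des w + 1) 1 + F (des w) 0 + des w * F (des w) (eps w)
          + (n - des w) * F (des w + 1) (eps w)) := by
  have h1 : ∑ σ : Perm (Fin (n+2)), F (des σ) (eps σ)
      = ∑ q : Fin (n+2) × Perm (Fin (n+1)), F (des (ins q.1 q.2)) (eps (ins q.1 q.2)) := by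
    symm
    exact Function.Bijective.sum_comp (ins_bij n) (fun σ => F (des σ) (eps σ))
  rw [h1, Fintype.sum_prod_type_right]
  apply Finset.sum_congr rfl
  intro w _
  simp only
  rw [Fin.sum_univ_succ, Fin.sum_univ_castSucc]
  rw [des_zero, eps_zero, Fin.succ_last, des_last, eps_last]
  have h2 : ∀ i : Fin n, F (des (ins i.castSucc.succ w)) (eps (ins i.castSucc.succ w))
      = (if w i.succ < w i.castSucc then (1:ℤ) else 0) * (F (des w) (eps w) - F (des w + 1) (eps w))
        + F (des w + 1) (eps w) := by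
    intro i
    rw [des_mid, eps_mid]
    split_ifs
    · simp
    · simp
  rw [Finset.sum_congr rfl (fun i _ => h2 i), Finset.sum_add_distrib, ← Finset.sum_mul]
  have h3 : (∑ i : Fin n, (if w i.succ < w i.castSucc then (1:ℤ) else 0)) = des w := rfl
  rw [h3]
  simp
  ring

def A (n : ℕ) (m : ℤ) : ℤ := ∑ w : Perm (Fin (n+1)), if des w = m then 1 else 0
def C (n : ℕ) (m : ℤ) : ℤ := ∑ w : Perm (Fin (n+1)), if des w + eps w = m then 1 else 0

def E : ℕ → ℤ → ℤ
  | 0, m => if m = 0 then 1 else 0
  | n+1, m => (m+1) * E n m + (n + 2 - m) * E n (m-1)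

lemma E_succ (n : ℕ) (m : ℤ) : E (n+1) m = (m+1) * E n m + (n + 2 - m) * E n (m-1) := rfl

lemma A_zero (m : ℤ) : A 0 m = if m = 0 then 1 else 0 := by
  unfold A des
  simp [eq_comm]

lemma C_zero (m : ℤ) : C 0 m = if m = 0 then 1 else 0 := by
  unfold C des eps
  simp [eq_comm]

lemma A_succ (n : ℕ) (m : ℤ) : A (n+1) m = (m+1) * A n m + (n + 2 - m) * A n (m-1) := by
  unfold A
  rw [master (fun d _ => if d = m then 1 else 0), Finset.mul_sum, Finset.mul_sum,
    ← Finset.sum_add_distrib]
  apply Finset.sum_congr rfl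
  intro w _
  by_cases h1 : des w = m
  · have h2 : ¬ (des w + 1 = m) := by omega
    have h3 : ¬ (des w = m - 1) := by omega
    simp only [if_pos h1, if_neg h2, if_neg h3]
    rw [h1]; ring
  · by_cases h2 : des w + 1 = m
    · have h3 : des w = m - 1 := by omega
      simp only [if_neg h1, if_pos h2, if_pos h3]
      rw [h3]; ring
    · have h3 : ¬ (des w = m - 1) := by omega
      simp only [if_neg h1, if_neg h2, if_neg h3]
      ring

lemma eps_cases {n : ℕ} (w : Perm (Fin (n+1))) : eps w = 0 ∨ eps w = 1 := by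
  unfold eps
  split_ifs
  · right; rfl
  · left; rfl

lemma C_succ (n : ℕ) (m : ℤ) : C (n+1) m = A n (m-2) + A n m + m * C n m
    + (n + 2 - m) * C n (m-1) - A n (m-1) := by
  unfold A C
  rw [master (fun d e => if d + e = m then 1 else 0), Finset.mul_sum, Finset.mul_sum,
    ← Finset.sum_add_distrib, ← Finset.sum_add_distrib, ← Finset.sum_add_distrib,
    ← Finset.sum_sub_distrib]
  apply Finset.sum_congr rfl
  intro w _
  have e0 : (des w + 1 + 1 = m) ↔ (des w = m - 2) := by constructor <;> intro h <;> omega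
  have e1 : (des w + 0 = m) ↔ (des w = m) := by constructor <;> intro h <;> omega
  simp only [e0, e1]
  have e2 : (des w + 1 + eps w = m) ↔ (des w + eps w = m - 1) := by
    constructor <;> intro h <;> omega
  simp only [e2]
  rcases eps_cases w with h | h
  · rw [h]
    simp only [add_zero]
    by_cases h1 : des w = m
    · have h3 : ¬ (des w = m - 1) := by omega
      have h4 : ¬ (des w = m - 2) := by omega
      simp only [if_pos h1, if_neg h3, if_neg h4]
      rw [h1]; ring
    · by_cases h2 : des w = m - 1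
      · have h4 : ¬ (des w = m - 2) := by omega
        simp only [if_neg h1, if_pos h2, if_neg h4]
        rw [h2]; ring
      · simp only [if_neg h1, if_neg h2]
        ring
  · rw [h]
    have e3 : (des w + 1 = m) ↔ (des w = m - 1) := by constructor <;> intro h <;> omega
    have e4 : (des w + 1 = m - 1) ↔ (des w = m - 2) := by constructor <;> intro h <;> omega
    simp only [e3, e4]
    by_cases h1 : des w = m
    · have h3 : ¬ (des w = m - 1) := by omega
      have h4 : ¬ (des w = m - 2) := by omega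
      simp only [if_pos h1, if_neg h3, if_neg h4]
      ring
    · by_cases h2 : des w = m - 1
      · have h4 : ¬ (des w = m - 2) := by omega
        simp only [if_neg h1, if_pos h2, if_neg h4]
        rw [h2]; ring
      · by_cases h3 : des w = m - 2
        · simp only [if_neg h1, if_neg h2, if_pos h3]
          rw [h3]; ring
        · simp only [if_neg h1, if_neg h2, if_neg h3]
          ring

lemma A_eq (n : ℕ) : ∀ m : ℤ, A n m = E n m := by
  induction n with
  | zero => intro m; rw [A_zero]; rfl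
  | succ n ih => intro m; rw [A_succ, E_succ, ih, ih]

lemma C_eq (n : ℕ) : ∀ m : ℤ, C (n+1) m = (m+1) * E n m + (n + 3 - m) * E n (m-2) := by
  induction n with
  | zero =>
    intro m
    rw [C_succ, A_zero, A_zero, A_zero, C_zero, C_zero]
    show _ = (m+1) * (if m = 0 then 1 else 0) + ((0:ℕ) + 3 - m) * (if m - 2 = 0 then 1 else 0)
    by_cases h0 : m = 0
    · subst h0; norm_num
    · by_cases h1 : m = 1
      · subst h1; norm_num
      · by_cases h2 : m = 2
        · subst h2; norm_num
        · have h3 : ¬ (m - 1 = 0) := by omega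
          have h4 : ¬ (m - 2 = 0) := by omega
          simp only [if_neg h0, if_neg h3, if_neg h4]
          ring
  | succ n ih =>
    intro m
    rw [C_succ, ih, ih, A_eq, A_eq, A_eq, E_succ n m, E_succ n (m-1), E_succ n (m-2)]
    have e1 : m - 1 - 1 = m - 2 := by ring
    have e2 : m - 1 - 2 = m - 3 := by ring
    have e3 : m - 2 - 1 = m - 3 := by ring
    rw [e1, e2, e3]
    push_cast
    ring

lemma E_symm (n : ℕ) : ∀ m : ℤ, E n (n - m) = E n m := by
  induction n with
  | zero =>
    intro m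
    show (if ((0:ℕ):ℤ) - m = 0 then (1:ℤ) else 0) = if m = 0 then 1 else 0
    by_cases h : m = 0
    · subst h; simp
    · rw [if_neg h, if_neg]; push_cast; omega
  | succ n ih =>
    intro m
    rw [E_succ, E_succ]
    have e1 : (((n+1:ℕ):ℤ) - m) = (n:ℤ) - (m - 1) := by push_cast; ring
    have e2 : (((n+1:ℕ):ℤ) - m) - 1 = (n:ℤ) - m := by push_cast; ring
    rw [e2, e1, ih, ih]
    ring

lemma E_neg (n : ℕ) : ∀ m : ℤ, m < 0 → E n m = 0 := by
  induction n with
  | zero =>
    intro m hm
    show (if m = 0 then (1:ℤ) else 0) = 0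
    rw [if_neg (by omega)]
  | succ n ih =>
    intro m hm
    rw [E_succ, ih m hm, ih (m-1) (by omega)]
    ring

lemma E_big (n : ℕ) (m : ℤ) (h : (n:ℤ) < m) : E n m = 0 := by
  rw [← E_symm]
  exact E_neg n _ (by omega)

lemma E_mono (n : ℕ) : ∀ m : ℤ, 2 * m ≤ n + 1 → E n (m-1) ≤ E n m := by
  induction n with
  | zero =>
    intro m hm
    show (if m - 1 = 0 then (1:ℤ) else 0) ≤ (if m = 0 then (1:ℤ) else 0)
    have h1 : ¬ (m - 1 = 0) := by push_cast at hm; omega
    rw [if_neg h1]
    split_ifs <;> norm_num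
  | succ n ih =>
    intro m hm
    push_cast at hm
    by_cases hneg : m < 0
    · rw [E_neg _ m hneg, E_neg _ (m-1) (by omega)]
    · have hm0 : 0 ≤ m := by omega
      rw [E_succ, E_succ]
      have e1 : m - 1 - 1 = m - 2 := by ring
      rw [e1]
      by_cases h2 : 2 * m ≤ n + 1
      · have i1 := ih m h2
        have i2 := ih (m-1) (by omega)
        rw [e1] at i2
        have p1 : 0 ≤ (m+1) * (E n m - E n (m-1)) := mul_nonneg (by omega) (by omega)
        have p2 : 0 ≤ (n + 3 - m) * (E n (m-1) - E n (m-2)) := mul_nonneg (by omega) (by omega)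
        nlinarith
      · have h3 : 2 * m = n + 2 := by omega
        have e2 : E n m = E n (m-2) := by
          rw [← E_symm n (m-2)]
          congr 1
          omega
        rw [e2]
        have e4 : (n:ℤ) = 2 * m - 2 := by omega
        rw [e4]
        apply le_of_eq
        ring

lemma E_nonneg (n : ℕ) : ∀ m : ℤ, 0 ≤ E n m := by
  induction n with
  | zero =>
    intro m
    show 0 ≤ (if m = 0 then (1:ℤ) else 0)
    split_ifs <;> norm_num
  | succ n ih =>
    intro m
    by_cases h : m < 0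
    · rw [E_neg _ m h]
    · by_cases h' : ((n+1:ℕ):ℤ) < m
      · rw [E_big _ m h']
      · rw [E_succ]
        push_cast at h'
        exact add_nonneg (mul_nonneg (by omega) (ih m)) (mul_nonneg (by omega) (ih _))

/-- the middle inequality -/
lemma middle (q : ℕ) :
    ((q:ℤ) + 3) * E (2*q+4) (q+2) + ((q:ℤ)+5) * E (2*q+4) q
      ≤ 2 * ((q:ℤ)+4) * E (2*q+4) (q+1) := by
  have s1 : E (2*q+1) (q+1) = E (2*q+1) q := by
    rw [← E_symm (2*q+1) q]
    congr 1
    push_cast; ring
  have ha : E (2*q+1) (q-1) ≤ E (2*q+1) q := E_mono _ _ (by push_cast; omega)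
  have hb : E (2*q+1) (q-2) ≤ E (2*q+1) (q-1) := by
    have := E_mono (2*q+1) (q-1) (by push_cast; omega)
    have e : (q:ℤ) - 1 - 1 = q - 2 := by ring
    rwa [e] at this
  have hc : E (2*q+1) (q-3) ≤ E (2*q+1) (q-2) := by
    have := E_mono (2*q+1) (q-2) (by push_cast; omega)
    have e : (q:ℤ) - 2 - 1 = q - 3 := by ring
    rwa [e] at this
  have hd0 : E (2*q+1) (q+2) = E (2*q+1) (q-1) := by
    rw [← E_symm (2*q+1) (q-1)]
    congr 1
    push_cast; ring
  have r4 : ∀ m : ℤ, E (2*q+4) m = (m+1) * E (2*q+3) m + (2*q+3 + 2 - m) * E (2*q+3) (m-1) := by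
    intro m
    rw [show 2*q+4 = (2*q+3)+1 from rfl, E_succ]; push_cast; ring
  have r3 : ∀ m : ℤ, E (2*q+3) m = (m+1) * E (2*q+2) m + (2*q+2 + 2 - m) * E (2*q+2) (m-1) := by
    intro m
    rw [show 2*q+3 = (2*q+2)+1 from rfl, E_succ]; push_cast; ring
  have r2 : ∀ m : ℤ, E (2*q+2) m = (m+1) * E (2*q+1) m + (2*q+1 + 2 - m) * E (2*q+1) (m-1) := by
    intro m
    rw [show 2*q+2 = (2*q+1)+1 from rfl, E_succ]; push_cast; ring
  have a1 : (q:ℤ) + 2 - 1 = q + 1 := by ring
  have a2 : (q:ℤ) + 1 - 1 = q := by ring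
  have a3 : (q:ℤ) - 1 - 1 = q - 2 := by ring
  have a4 : (q:ℤ) - 2 - 1 = q - 3 := by ring
  simp only [r4, r3, r2, a1, a2, a3, a4, s1, hd0]
  obtain ⟨x, hx⟩ : ∃ x, x = E (2*q+1) q - E (2*q+1) (q-1) := ⟨_, rfl⟩
  obtain ⟨y, hy⟩ : ∃ y, y = E (2*q+1) (q-1) - E (2*q+1) (q-2) := ⟨_, rfl⟩
  obtain ⟨z, hz⟩ : ∃ z, z = E (2*q+1) (q-2) - E (2*q+1) (q-3) := ⟨_, rfl⟩
  have hx0 : 0 ≤ x := by rw [hx]; omega
  have hy0 : 0 ≤ y := by rw [hy]; omega
  have hz0 : 0 ≤ z := by rw [hz]; omega
  have ea : E (2*q+1) q = E (2*q+1) (q-3) + z + y + x := by rw [hx, hy, hz]; ring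
  have eb : E (2*q+1) (q-1) = E (2*q+1) (q-3) + z + y := by rw [hy, hz]; ring
  have ed : E (2*q+1) (q-2) = E (2*q+1) (q-3) + z := by rw [hz]; ring
  rw [ea, eb, ed]
  obtain ⟨p, hp⟩ : ∃ p : ℤ, p = (q:ℤ) := ⟨_, rfl⟩
  rw [← hp]
  have hp0 : 0 ≤ p := by rw [hp]; positivity
  have c1 : 0 ≤ ((p+5)^2 * (p+1)^2 - 2*(2*(p+2)^2+2*(p+2)-2)) * x := by
    apply mul_nonneg _ hx0
    nlinarith [mul_nonneg hp0 hp0, mul_nonneg (mul_nonneg hp0 hp0) hp0, mul_nonneg (mul_nonneg hp0 hp0) (mul_nonneg hp0 hp0)]
  have c2 : 0 ≤ ((p+5)^2 * (2*(p+2)^2+2*(p+2)-8) - 2*(p+4)^2) * y := by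
    apply mul_nonneg _ hy0
    nlinarith [mul_nonneg hp0 hp0, mul_nonneg (mul_nonneg hp0 hp0) hp0, mul_nonneg (mul_nonneg hp0 hp0) (mul_nonneg hp0 hp0)]
  have c3 : 0 ≤ ((p+5)^2 * (p+5)^2) * z := by positivity
  nlinarith [c1, c2, c3]

lemma D_mono (n : ℕ) (hn : 3 ≤ n) (m : ℤ) (hm : 2 * m ≤ n + 2) : C (n+1) (m-1) ≤ C (n+1) m := by
  rw [C_eq, C_eq]
  have e1 : m - 1 - 2 = m - 3 := by ring
  rw [e1]
  by_cases hneg : m < 0
  · rw [E_neg _ m hneg, E_neg _ (m-1) (by omega), E_neg _ (m-2) (by omega), E_neg _ (m-3) (by omega)]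
    simp
  · by_cases h2 : 2 * m ≤ n + 1
    · have i1 := E_mono n m h2
      have i2 := E_mono n (m-1) (by omega)
      have i3 := E_mono n (m-2) (by omega)
      have e2 : m - 1 - 1 = m - 2 := by ring
      have e3 : m - 2 - 1 = m - 3 := by ring
      rw [e2] at i2
      rw [e3] at i3
      have p1 : 0 ≤ (m+1) * (E n m - E n (m-1)) := mul_nonneg (by omega) (by omega)
      have p2 : 0 ≤ (n + 4 - m) * (E n (m-2) - E n (m-3)) := mul_nonneg (by omega) (by omega)
      nlinarith
    · have h3 : 2 * m = n + 2 := by omega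
      obtain ⟨q, hq⟩ : ∃ q : ℕ, n = 2 * q + 4 := ⟨(n - 4) / 2, by omega⟩
      have hmq : m = q + 3 := by omega
      have e2 : E n m = E n (m-2) := by
        rw [← E_symm n (m-2)]
        congr 1
        omega
      have := middle q
      rw [e2]
      subst hq
      rw [hmq]
      have f1 : (q:ℤ) + 3 - 1 = q + 2 := by ring
      have f2 : (q:ℤ) + 3 - 2 = q + 1 := by ring
      have f3 : (q:ℤ) + 3 - 3 = q := by ring
      rw [f1, f2, f3]
      push_cast
      linarith

lemma D_symm (n : ℕ) (m : ℤ) : C (n+1) (n + 2 - m) = C (n+1) m := by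
  rw [C_eq, C_eq]
  have e1 : (n:ℤ) + 2 - m - 2 = n - m := by ring
  have e2 : (n:ℤ) + 2 - m = n - (m - 2) := by ring
  rw [e1, E_symm, e2, E_symm]
  ring

lemma stat_eq (n : ℕ) (hn : 2 ≤ n) (w : Perm (Fin (n+1+1))) :
    ((((Finset.univ : Finset (Fin (n+1+1) × Fin (n+1+1))).filter
      (fun p => p.1 < p.2 ∧ w p.2 < w p.1 ∧ ((p.2 : ℕ) - (p.1 : ℕ)) % n = 1)).card : ℕ) : ℤ)
      = des w + eps w := by
  have key : (Finset.univ : Finset (Fin (n+1+1) × Fin (n+1+1))).filter
      (fun p => p.1 < p.2 ∧ w p.2 < w p.1 ∧ ((p.2 : ℕ) - (p.1 : ℕ)) % n = 1)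
      = (((Finset.univ : Finset (Fin (n+1))).filter (fun i => w i.succ < w i.castSucc)).image
          (fun i => (i.castSucc, i.succ))) ∪
        (if w (Fin.last (n+1)) < w 0 then {((0 : Fin (n+1+1)), Fin.last (n+1))} else ∅) := by
    ext ⟨a, b⟩
    simp only [Finset.mem_filter, Finset.mem_univ, true_and, Finset.mem_union, Finset.mem_image,
      Prod.mk.injEq]
    constructor
    · rintro ⟨hab, hw, hmod⟩
      have hab' : (a : ℕ) < b := hab
      have hb := b.2
      by_cases h1 : (b : ℕ) = a + 1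
      · left
        refine ⟨⟨a, by omega⟩, ?_, ?_, ?_⟩
        · have e1 : Fin.succ (⟨a, by omega⟩ : Fin (n+1)) = b := Fin.ext (by simp [h1])
          have e2 : Fin.castSucc (⟨a, by omega⟩ : Fin (n+1)) = a := Fin.ext (by simp)
          rw [e1, e2]; exact hw
        · exact Fin.ext (by simp)
        · exact Fin.ext (by simp [h1])
      · right
        have h2 : (b : ℕ) - a = n + 1 := by
          obtain ⟨g, hg⟩ : ∃ g, g = (b : ℕ) - a := ⟨_, rfl⟩
          rw [← hg] at hmod ⊢
          have hg1 : g ≤ n + 1 := by omega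
          have hg2 : 2 ≤ g := by omega
          by_contra hne
          have hg3 : g ≤ n := by omega
          rcases Nat.lt_or_ge g n with hlt | hge
          · rw [Nat.mod_eq_of_lt hlt] at hmod; omega
          · have : g = n := by omega
            rw [this, Nat.mod_self] at hmod; omega
        have ha0 : a = 0 := by
          apply Fin.ext
          have : ((0 : Fin (n+1+1)) : ℕ) = 0 := rfl
          rw [this]; omega
        have hb0 : b = Fin.last (n+1) := by
          apply Fin.ext
          rw [Fin.val_last]; omega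
        rw [ha0, hb0] at hw
        rw [if_pos hw]
        simp [ha0, hb0]
    · rintro (⟨i, hi, rfl, rfl⟩ | h)
      · refine ⟨Fin.castSucc_lt_succ, hi, ?_⟩
        simp only [Fin.val_succ, Fin.val_castSucc]
        rw [Nat.add_sub_cancel_left, Nat.mod_eq_of_lt (by omega)]
      · split_ifs at h with hw
        · simp only [Finset.mem_singleton, Prod.mk.injEq] at h
          obtain ⟨rfl, rfl⟩ := h
          refine ⟨Fin.last_pos, hw, ?_⟩
          simp only [Fin.val_last, Fin.val_zero, Nat.sub_zero]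
          rw [Nat.add_mod_left, Nat.mod_eq_of_lt (by omega)]
        · simp at h
  have hinj : Function.Injective (fun i : Fin (n+1) => (i.castSucc, i.succ)) := by
    intro a b h
    exact Fin.succ_injective _ (Prod.mk.inj h).2
  rw [key, Finset.card_union_of_disjoint, Finset.card_image_of_injective _ hinj, Finset.card_filter]
  · unfold des eps
    push_cast
    congr 1
    split_ifs <;> simp
  · rw [Finset.disjoint_left]
    rintro ⟨a, b⟩ h1 h2
    simp only [Finset.mem_image, Finset.mem_filter, Finset.mem_univ, true_and,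
      Prod.mk.injEq] at h1
    obtain ⟨i, _, h3, h4⟩ := h1
    split_ifs at h2
    · simp only [Finset.mem_singleton, Prod.mk.injEq] at h2
      have e1 : (i : ℕ) = 0 := congrArg Fin.val (h3.trans h2.1)
      have e2 : (i : ℕ) + 1 = n + 1 := congrArg Fin.val (h4.trans h2.2)
      omega
    · simp at h2

lemma des_eq (n : ℕ) (w : Perm (Fin (n+1))) :
    ((((Finset.univ : Finset (Fin (n+1) × Fin (n+1))).filter
      (fun p => (p.2 : ℕ) = (p.1 : ℕ) + 1 ∧ w p.2 < w p.1)).card : ℕ) : ℤ)
      = des w := by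
  have key : (Finset.univ : Finset (Fin (n+1) × Fin (n+1))).filter
      (fun p => (p.2 : ℕ) = (p.1 : ℕ) + 1 ∧ w p.2 < w p.1)
      = (((Finset.univ : Finset (Fin n)).filter (fun i => w i.succ < w i.castSucc)).image
          (fun i => (i.castSucc, i.succ))) := by
    ext ⟨a, b⟩
    simp only [Finset.mem_filter, Finset.mem_univ, true_and, Finset.mem_image,
      Prod.mk.injEq]
    constructor
    · rintro ⟨h1, hw⟩
      have hb := b.2
      refine ⟨⟨a, by omega⟩, ?_, ?_, ?_⟩
      · have e1 : Fin.succ (⟨a, by omega⟩ : Fin n) = b := Fin.ext (by simp [h1])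
        have e2 : Fin.castSucc (⟨a, by omega⟩ : Fin n) = a := Fin.ext (by simp)
        rw [e1, e2]; exact hw
      · exact Fin.ext (by simp)
      · exact Fin.ext (by simp [h1])
    · rintro ⟨i, hi, rfl, rfl⟩
      exact ⟨by simp, hi⟩
  have hinj : Function.Injective (fun i : Fin n => (i.castSucc, i.succ)) := by
    intro a b h
    exact Fin.succ_injective _ (Prod.mk.inj h).2
  rw [key, Finset.card_image_of_injective _ hinj, Finset.card_filter]
  unfold des
  push_cast
  rfl

/-- `cnt n k t`: the number of permutations `w` of the `n+1` letters `Fin (n+1)` having exactly `t`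
inversions (pairs `i < j` with `w i > w j`) whose gap satisfies `j - i ≡ 1 mod k`; this is the
coefficient of `q^t` in `B_{n,k,1}(q)` (the same expression as in the frozen statement). -/
def cnt (n k t : ℕ) : ℕ :=
  (Finset.univ.filter (fun w : Equiv.Perm (Fin (n+1)) =>
    ((Finset.univ : Finset (Fin (n+1) × Fin (n+1))).filter
      (fun p => p.1 < p.2 ∧ w p.2 < w p.1 ∧ ((p.2 : ℕ) - (p.1 : ℕ)) % k = 1)).card = t)).card

/-- `eul n t`: the Eulerian number, i.e. the number of permutations `w` of the `n` letters `Fin n`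
with exactly `t` descents (positions `i` with `w i > w (i+1)`). -/
def eul (n t : ℕ) : ℕ :=
  (Finset.univ.filter (fun w : Equiv.Perm (Fin n) =>
    ((Finset.univ : Finset (Fin n × Fin n)).filter
      (fun p => (p.2 : ℕ) = (p.1 : ℕ) + 1 ∧ w p.2 < w p.1)).card = t)).card

lemma cnt_eq (n : ℕ) (hn : 2 ≤ n) (t : ℕ) : ((cnt (n+1) n t : ℕ) : ℤ) = C (n+1) t := by
  unfold cnt C
  rw [Finset.card_filter]
  push_cast
  apply Finset.sum_congr rfl
  intro w _
  have := stat_eq n hn w
  rw [← this]
  norm_cast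

lemma eul_eq (n : ℕ) (t : ℕ) : ((eul (n+1) t : ℕ) : ℤ) = E n t := by
  rw [← A_eq]
  unfold eul A
  rw [Finset.card_filter]
  push_cast
  apply Finset.sum_congr rfl
  intro w _
  have := des_eq n w
  rw [← this]
  norm_cast

lemma step0 (n : ℕ) (hn : 3 ≤ n) (t : ℕ) (ht : 2 * (t + 1) ≤ n + 2) :
    cnt (n+1) n t ≤ cnt (n+1) n (t+1) := by
  have h := D_mono n hn ((t:ℤ)+1) (by omega)
  have e : (t:ℤ) + 1 - 1 = t := by ring
  rw [e] at h
  have h1 := cnt_eq n (by omega) t
  have h2 := cnt_eq n (by omega) (t+1)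
  push_cast at h2
  rw [← h1, ← h2] at h
  exact_mod_cast h

lemma cnt_zero_of_big (n : ℕ) (hn : 3 ≤ n) (t : ℕ) (ht : n + 2 < t) : cnt (n+1) n t = 0 := by
  have h1 := cnt_eq n (by omega) t
  rw [C_eq, E_big n t (by omega), E_big n ((t:ℤ)-2) (by omega)] at h1
  simp at h1
  exact_mod_cast h1

lemma cnt_symm (n : ℕ) (hn : 3 ≤ n) (t : ℕ) (ht : t ≤ n + 2) :
    cnt (n+1) n (n + 2 - t) = cnt (n+1) n t := by
  have h1 := cnt_eq n (by omega) t
  have h2 := cnt_eq n (by omega) (n + 2 - t)
  have e : (((n + 2 - t : ℕ)) : ℤ) = (n:ℤ) + 2 - t := by omega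
  rw [e, D_symm, ← h1] at h2
  exact_mod_cast h2

lemma step (n : ℕ) (hn : 3 ≤ n) (t : ℕ) (ht : 2 * (t + 1) ≤ n + 3) :
    cnt (n+1) n t ≤ cnt (n+1) n (t+1) := by
  by_cases h : 2 * (t + 1) ≤ n + 2
  · exact step0 n hn t h
  · rw [← cnt_symm n hn t (by omega)]
    have : n + 2 - t = t + 1 := by omega
    rw [this]

lemma mono_up (n : ℕ) (hn : 3 ≤ n) (i j : ℕ) (hij : i ≤ j) (hj : 2 * j ≤ n + 3) :
    cnt (n+1) n i ≤ cnt (n+1) n j := by
  induction j, hij using Nat.le_induction with
  | base => exact le_rfl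
  | succ j hij ih => exact (ih (by omega)).trans (step n hn j hj)

/-- **The case `k = n - 1`, for every `n ≥ 4`.**  The coefficient sequence of `B_{n,n-1,1}(q)` is
unimodal, and it is given explicitly by Eulerian numbers:
`[q^m] B_{n,n-1,1} = (m+1) A(n,m) + (n+2-m) A(n,m-2)`. -/
theorem result (n : ℕ) (hn : 4 ≤ n) :
    (∃ m : ℕ, (∀ i j : ℕ, i ≤ j → j ≤ m → cnt n (n-1) i ≤ cnt n (n-1) j) ∧
      (∀ i j : ℕ, m ≤ i → i ≤ j → cnt n (n-1) j ≤ cnt n (n-1) i)) ∧
    cnt n (n-1) 0 = eul n 0 ∧ cnt n (n-1) 1 = 2 * eul n 1 ∧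
    ∀ t : ℕ, cnt n (n-1) (t+2) = (t+3) * eul n (t+2) + (n-t) * eul n t := by
  obtain ⟨n, rfl⟩ : ∃ n', n = n' + 1 := ⟨n - 1, by omega⟩
  have hn3 : 3 ≤ n := by omega
  rw [Nat.add_sub_cancel]
  refine ⟨⟨(n+2)/2, ?_, ?_⟩, ?_, ?_, ?_⟩
  · intro i j hij hj
    exact mono_up n hn3 i j hij (by omega)
  · intro i j hmi hij
    by_cases hj : n + 2 < j
    · rw [cnt_zero_of_big n hn3 j hj]; exact Nat.zero_le _
    · rw [← cnt_symm n hn3 j (by omega), ← cnt_symm n hn3 i (by omega)]
      exact mono_up n hn3 _ _ (by omega) (by omega)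
  · have h1 := cnt_eq n (by omega) 0
    have h2 := eul_eq n 0
    rw [C_eq, E_neg n (((0:ℕ):ℤ)-2) (by simp)] at h1
    rw [← h2] at h1
    push_cast at h1
    have : ((cnt (n+1) n 0 : ℕ) : ℤ) = eul (n+1) 0 := by rw [h1]; ring
    exact_mod_cast this
  · have h1 := cnt_eq n (by omega) 1
    have h2 := eul_eq n 1
    rw [C_eq, E_neg n (((1:ℕ):ℤ)-2) (by norm_num)] at h1
    rw [← h2] at h1
    push_cast at h1
    have : ((cnt (n+1) n 1 : ℕ) : ℤ) = 2 * eul (n+1) 1 := by rw [h1]; ring
    exact_mod_cast this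
  · intro t
    have h1 := cnt_eq n (by omega) (t+2)
    have h2 := eul_eq n (t+2)
    have h3 := eul_eq n t
    have e : (((t+2:ℕ):ℤ)) - 2 = t := by push_cast; ring
    rw [C_eq, e, ← h2, ← h3] at h1
    by_cases ht : t ≤ n + 1
    · have e2 : (((n + 1 - t : ℕ)) : ℤ) = (n:ℤ) + 1 - t := by omega
      have : ((cnt (n+1) n (t+2) : ℕ) : ℤ) = ((t+3) * eul (n+1) (t+2) + (n+1-t : ℕ) * eul (n+1) t : ℕ) := by
        rw [h1]
        push_cast [e2]
        ring
      exact_mod_cast this
    · have z1 : eul (n+1) t = 0 := by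
        have := eul_eq n t
        rw [E_big n t (by omega)] at this
        exact_mod_cast this
      have z2 : eul (n+1) (t+2) = 0 := by
        have := eul_eq n (t+2)
        rw [E_big n _ (by push_cast; omega)] at this
        exact_mod_cast this
      rw [z1, z2, Nat.mul_zero, Nat.mul_zero]
      rw [z1, z2] at h1
      simp at h1
      exact_mod_cast h1

end Pool.Agent.Results.MP_64bee1_co.FirstOpenDistance
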